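import Pool.Agent.Helper14.CV.StD

/-!
# Project CV, module Cnt: counting the index set
-/

set_option autoImplicit false

namespace Pool.Agent.Helper58.CV

open Pool.Agent.Helper14.CV

/-- Counting the numbers below `c`. -/
private theorem inner (A c : ℕ) (h : c ≤ A) :
    (∑ i ∈ Finset.range A, if i < c then 1 else 0) = c := by
  rw [← Finset.sum_filter, Finset.sum_const, smul_eq_mul, mul_one]
  have : (Finset.range A).filter (fun i => i < c) = Finset.range c := by
    ext i
    simp only [Finset.mem_filter, Finset.mem_range]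
    omega
  rw [this, Finset.card_range]

/-- Gauss. -/
private theorem gauss (M : ℕ) : (∑ j ∈ Finset.range M, (M - j)) * 2 = M * (M + 1) := by
  induction M with
  | zero => simp
  | succ M ih =>
    rw [Finset.sum_range_succ']
    have h : (∑ k ∈ Finset.range M, (M + 1 - (k + 1))) = ∑ k ∈ Finset.range M, (M - k) :=
      Finset.sum_congr rfl fun k _ => by omega
    rw [h, add_mul, ih]
    simp only [Nat.sub_zero]
    ring

/-- The terms beyond `M` vanish. -/
private theorem outer (B M : ℕ) (h : M ≤ B) :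
    (∑ j ∈ Finset.range B, (M - j)) * 2 = M * (M + 1) := by
  rw [← gauss M]
  congr 1
  symm
  apply Finset.sum_subset
  · intro j hj
    simp only [Finset.mem_range] at hj ⊢
    omega
  · intro j _ hj
    simp only [Finset.mem_range] at hj
    omega

/-- The triangle `i + j < M`. -/
private theorem tri (A B M : ℕ) (hA : M ≤ A) (hB : M ≤ B) :
    ((Finset.range A ×ˢ Finset.range B).filter fun t : ℕ × ℕ => t.1 + t.2 < M).card * 2 =
      M * (M + 1) := by
  rw [Finset.card_filter, Finset.sum_product_right, ← outer B M hB]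
  congr 1
  apply Finset.sum_congr rfl
  intro j _
  rw [← inner A (M - j) (by omega)]
  apply Finset.sum_congr rfl
  intro i _
  by_cases h : i + j < M
  · rw [if_pos h, if_pos (by omega)]
  · rw [if_neg h, if_neg (by omega)]

/-- The triangle `i + 2 j < 2 M`. -/
private theorem tri2 (A B M : ℕ) (hA : 2 * M ≤ A) (hB : M ≤ B) :
    ((Finset.range A ×ˢ Finset.range B).filter fun t : ℕ × ℕ => t.1 + 2 * t.2 < 2 * M).card =
      M * (M + 1) := by
  rw [Finset.card_filter, Finset.sum_product_right, ← outer B M hB, Finset.sum_mul]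
  apply Finset.sum_congr rfl
  intro j _
  rw [← inner A ((M - j) * 2) (by omega)]
  apply Finset.sum_congr rfl
  intro i _
  by_cases h : i + 2 * j < 2 * M
  · rw [if_pos h, if_pos (by omega)]
  · rw [if_neg h, if_neg (by omega)]

private theorem dd_odd (k : ℕ) : dd (2 * k + 5) * 2 = 2 ^ k * (2 ^ k + 1) := by
  unfold dd
  rw [if_neg (by omega), if_neg (by omega)]
  have h : (2 * k + 5) / 2 - 2 = k := by omega
  rw [h]
  exact Nat.div_mul_cancel (Nat.even_mul_succ_self (2 ^ k)).two_dvd

private theorem dd_even (k : ℕ) : dd (2 * k + 6) = 4 ^ k := by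
  unfold dd
  rw [if_neg (by omega), if_pos (by omega)]
  have h : (2 * k + 6) / 2 - 3 = k := by omega
  rw [h]

private theorem DD_succ (n : ℕ) : DD (n + 1) = DD n + dd (n + 1) := by
  unfold DD
  rw [Finset.sum_range_succ (fun m => dd m) (n + 1)]
  ring

private theorem DD_even (k : ℕ) : DD (2 * k + 4) * 2 = 2 ^ k * (2 ^ k + 1) := by
  induction k with
  | zero => decide
  | succ k ih =>
    have h1 : DD (2 * (k + 1) + 4) = DD (2 * k + 4) + dd (2 * k + 5) + dd (2 * k + 6) := by
      rw [show 2 * (k + 1) + 4 = (2 * k + 5) + 1 by ring, DD_succ,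
        show 2 * k + 5 = (2 * k + 4) + 1 by ring, DD_succ]
    have h4 : (4 : ℕ) ^ k = 2 ^ k * 2 ^ k := by
      rw [← mul_pow]
      norm_num
    rw [h1, add_mul, add_mul, ih, dd_odd, dd_even, h4, pow_succ]
    ring

private theorem DD_odd (k : ℕ) : DD (2 * k + 5) = 2 ^ k * (2 ^ k + 1) := by
  have h1 : DD (2 * k + 5) = DD (2 * k + 4) + dd (2 * k + 5) := DD_succ (2 * k + 4)
  have h2 := DD_even k
  have h3 := dd_odd k
  omega

/-- CNT. -/
theorem hCnt : StCnt := by
  constructor
  · intro k hk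
    obtain ⟨m, rfl⟩ : ∃ m, k = m + 2 := ⟨k - 2, by omega⟩
    have hp : (2 : ℕ) ^ (m + 2 - 1) = 2 * 2 ^ m := by
      rw [show m + 2 - 1 = m + 1 by omega, pow_succ]
      ring
    have hq : (2 : ℕ) ^ (m + 2) = 4 * 2 ^ m := by
      rw [pow_add]
      ring
    have h1 := tri (2 ^ (m + 2)) (2 ^ (m + 2)) (2 ^ m) (by omega) (by omega)
    have h2 : DD (2 * (m + 2)) * 2 = 2 ^ m * (2 ^ m + 1) := DD_even m
    have h3 : ((Finset.range (2 ^ (m + 2)) ×ˢ Finset.range (2 ^ (m + 2))).filter
        fun t : ℕ × ℕ => 2 * t.1 + 2 * t.2 + 1 < 2 ^ (m + 2 - 1) ∧ t.1 + 2 * t.2 < 2 ^ (m + 2 - 1)) =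
        ((Finset.range (2 ^ (m + 2)) ×ˢ Finset.range (2 ^ (m + 2))).filter
          fun t : ℕ × ℕ => t.1 + t.2 < 2 ^ m) := by
      apply Finset.filter_congr
      intro t _
      rw [hp]
      constructor
      · intro h
        omega
      · intro h
        constructor <;> omega
    rw [h3]
    exact Nat.eq_of_mul_eq_mul_right two_pos (h1.trans h2.symm)
  · intro k hk
    obtain ⟨m, rfl⟩ : ∃ m, k = m + 2 := ⟨k - 2, by omega⟩
    have hp : (2 : ℕ) ^ (m + 2 - 1) = 2 * 2 ^ m := by
      rw [show m + 2 - 1 = m + 1 by omega, pow_succ]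
      ring
    have hq : (2 : ℕ) ^ (m + 2) = 4 * 2 ^ m := by
      rw [pow_add]
      ring
    have hr : (2 : ℕ) ^ (m + 2 + 1) = 8 * 2 ^ m := by
      rw [add_assoc, pow_add]
      ring
    have h1 := tri2 (2 ^ (m + 2 + 1)) (2 ^ (m + 2 + 1)) (2 ^ m) (by omega) (by omega)
    have h2 : DD (2 * (m + 2) + 1) = 2 ^ m * (2 ^ m + 1) := DD_odd m
    have h3 : ((Finset.range (2 ^ (m + 2 + 1)) ×ˢ Finset.range (2 ^ (m + 2 + 1))).filter
        fun t : ℕ × ℕ => 2 * t.1 + 2 * t.2 + 1 < 2 ^ (m + 2) ∧ t.1 + 2 * t.2 < 2 ^ (m + 2 - 1)) =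
        ((Finset.range (2 ^ (m + 2 + 1)) ×ˢ Finset.range (2 ^ (m + 2 + 1))).filter
          fun t : ℕ × ℕ => t.1 + 2 * t.2 < 2 * 2 ^ m) := by
      apply Finset.filter_congr
      intro t _
      rw [hp, hq]
      constructor
      · intro h
        exact h.2
      · intro h
        constructor <;> omega
    rw [h3, h1, h2]

end Pool.Agent.Helper58.CV
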